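import Pool.Agent.K6.H83.MC.Mills
import Pool.Agent.K6.H86.MM.Cantor

set_option autoImplicit false
set_option maxHeartbeats 4000000

/-! # Mills-type constants with many good integers in every short interval

A modification of `Pool.Agent.K6.H83.MC.Mills` (helper83): if every interval `[x, x + x^θ]` contains at least
`x^κ` good integers and the functions `g 0, g 1, ...` grow fast, then the set of the `t` for which `g k t` is
good for all large `k` has Hausdorff dimension at least `s`, if `θ < κ s + δ (1 - s)`. -/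

namespace Pool.Agent.K6.H86.MM

open Set Filter Topology
open Pool.Agent.K6.H83.MC (Fast size_aux)

/-- the Hölder estimate for two children of the same block -/
theorem sep_aux (K H L m M δ s ql τ w dc G : ℝ) (hK : 0 < K) (hH : 0 < H) (hM : 0 < M)
    (hs0 : 0 < s) (hs1 : s < 1) (hL0 : 0 < L) (hm : 0 < m) (hLm : 4 * K ^ 2 * L ≤ m ^ s * M ^ (δ * (1 - s)))
    (hA : H * τ ≤ K * L) (hC : 1 / 2 ≤ K * (G * ql)) (hw : w ≤ τ) (hw0 : 0 < w)
    (hwd : w ≤ 4 * K ^ 2 * (L / m) * dc) (hdc : 0 < dc)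
    (hql : 0 < ql) (hD : G * M ^ δ ≤ H) : w ≤ ql ^ (1 - s) * dc ^ s := by
  set E := 1 / (2 * K * H) with hE
  have hE0 : 0 < E := by positivity
  have hMδ : 0 < M ^ δ := Real.rpow_pos_of_pos hM _
  have h2 : M ^ δ * E ≤ ql := by
    have e1 : M ^ δ * (1 / 2) ≤ K * (H * ql) := by
      calc M ^ δ * (1 / 2) ≤ M ^ δ * (K * (G * ql)) := by gcongr
        _ = K * ((G * M ^ δ) * ql) := by ring
        _ ≤ K * (H * ql) := by gcongr
    rw [hE, mul_one_div, div_le_iff₀ (by positivity)]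
    linarith
  have h3 : w ≤ 2 * K ^ 2 * L * E := by
    have e1 : H * w ≤ K * L := (mul_le_mul_of_nonneg_left hw hH.le).trans hA
    have e2 : 2 * K ^ 2 * L * E = K * L / H := by rw [hE]; field_simp
    rw [e2, le_div_iff₀ hH]
    linarith
  have h4 : w = w ^ (1 - s) * w ^ s := by
    rw [← Real.rpow_add hw0]; simp
  have h5 : w ^ (1 - s) ≤ (4 * K ^ 2 * L * E) ^ (1 - s) := by
    apply Real.rpow_le_rpow hw0.le _ (by linarith)
    have : 0 < K ^ 2 * L * E := by positivity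
    linarith
  have h6 : w ^ s ≤ (4 * K ^ 2 * (L / m) * dc) ^ s := Real.rpow_le_rpow hw0.le hwd hs0.le
  have h7 : (4 * K ^ 2 * L * E) ^ (1 - s) * (4 * K ^ 2 * (L / m) * dc) ^ s =
      (4 * K ^ 2 * L / m ^ s) * (E ^ (1 - s) * dc ^ s) := by
    rw [Real.mul_rpow (by positivity) hE0.le, Real.mul_rpow (by positivity) hdc.le]
    have e : 4 * K ^ 2 * (L / m) = (4 * K ^ 2 * L) / m := by ring
    rw [e, Real.div_rpow (by positivity) hm.le]
    have e2 : (4 * K ^ 2 * L) ^ (1 - s) * (4 * K ^ 2 * L) ^ s = 4 * K ^ 2 * L := by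
      rw [← Real.rpow_add (by positivity)]; simp
    calc (4 * K ^ 2 * L) ^ (1 - s) * E ^ (1 - s) * ((4 * K ^ 2 * L) ^ s / m ^ s * dc ^ s)
        = ((4 * K ^ 2 * L) ^ (1 - s) * (4 * K ^ 2 * L) ^ s) / m ^ s * (E ^ (1 - s) * dc ^ s) := by ring
      _ = _ := by rw [e2]
  have hms : 0 < m ^ s := Real.rpow_pos_of_pos hm _
  have h8 : 4 * K ^ 2 * L / m ^ s ≤ M ^ (δ * (1 - s)) := by
    rw [div_le_iff₀ hms]
    linarith
  have h9 : M ^ (δ * (1 - s)) * E ^ (1 - s) ≤ ql ^ (1 - s) := by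
    rw [Real.rpow_mul hM.le, ← Real.mul_rpow hMδ.le hE0.le]
    exact Real.rpow_le_rpow (by positivity) h2 (by linarith)
  calc w = w ^ (1 - s) * w ^ s := h4
    _ ≤ (4 * K ^ 2 * L * E) ^ (1 - s) * (4 * K ^ 2 * (L / m) * dc) ^ s :=
        mul_le_mul h5 h6 (by positivity) (by positivity)
    _ = (4 * K ^ 2 * L / m ^ s) * (E ^ (1 - s) * dc ^ s) := h7
    _ ≤ M ^ (δ * (1 - s)) * (E ^ (1 - s) * dc ^ s) := mul_le_mul_of_nonneg_right h8 (by positivity)
    _ = (M ^ (δ * (1 - s)) * E ^ (1 - s)) * dc ^ s := by ring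
    _ ≤ ql ^ (1 - s) * dc ^ s := mul_le_mul_of_nonneg_right h9 (by positivity)

/-- a list of good points: starting points of half unit intervals, in `[x, x + B]` -/
structure Pts (Good : ℝ → Prop) (x B : ℝ) (m : ℕ) (y : ℕ → ℝ) : Prop where
  pos : 1 ≤ m
  low : x ≤ y 0
  step : ∀ i, y i + 1 ≤ y (i + 1)
  upp : ∀ i, i < m → y i ≤ x + B
  good : ∀ i, i < m → ∀ t, y i ≤ t → t ≤ y i + 1 / 2 → Good t

theorem Pts.add {Good : ℝ → Prop} {x B : ℝ} {m : ℕ} {y : ℕ → ℝ} (h : Pts Good x B m y) (i j : ℕ) (hij : i ≤ j) :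
    y i + ((j : ℝ) - i) ≤ y j := by
  induction j, hij using Nat.le_induction with
  | base => simp
  | succ j _ ih =>
    have := h.step j
    push_cast
    linarith

theorem Pts.ge {Good : ℝ → Prop} {x B : ℝ} {m : ℕ} {y : ℕ → ℝ} (h : Pts Good x B m y) (i : ℕ) : x ≤ y i := by
  have h1 := h.add 0 i (Nat.zero_le _)
  have h2 := h.low
  have h3 : (0 : ℝ) ≤ i := Nat.cast_nonneg i
  push_cast at h1
  linarith

/-- **One step**: the division of an interval on which `g k` grows by `1/2`. -/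
theorem division {δ C K a b : ℝ} {g g' : ℕ → ℝ → ℝ} (h : Fast δ C K a b g g') (hK : 1 ≤ K)
    (hδ0 : 0 < δ) (hδ1 : δ ≤ 1) (s θ κ : ℝ) (hs0 : 0 < s) (hs1 : s < 1) (hθ : 0 ≤ θ) (hκ : 0 ≤ κ)
    (Good : ℝ → Prop) (k : ℕ) {p q : ℝ} (hp : a ≤ p) (hpq : p < q) (hq : q ≤ b)
    (hg : g k q - g k p = 1 / 2) (hC : 0 ≤ C)
    (hM : 32 * K ^ 2 * g (k + 1) a ^ (C * θ) ≤ g (k + 1) a ^ δ)
    (hM' : 64 * K ^ 2 * g (k + 1) a ^ (C * θ) ≤ g (k + 1) a ^ (κ * s + δ * (1 - s)))
    (hX : ∀ x : ℝ, g (k + 1) a ≤ x → ∃ (m : ℕ) (y : ℕ → ℝ), Pts Good x (x ^ θ) m y ∧ x ^ κ ≤ m) :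
    ∃ lo hi c d : ℝ → ℝ, Division s (3 * K ^ 2) (1 / (3 * K ^ 2)) p q
      (fun x y => a ≤ x ∧ y ≤ b ∧ g (k + 1) y - g (k + 1) x = 1 / 2 ∧
        ∀ t, x ≤ t → t ≤ y → Good (g (k + 1) t)) lo hi c d := by
  have hab : a ≤ b := by linarith
  have hK0 : 0 < K := by linarith
  set M := g (k + 1) a with hMdef
  have hM1 : 1 ≤ M := h.one_le _ _ le_rfl hab
  have hM0 : 0 < M := by linarith
  set X := g (k + 1) p with hXdef
  set Y := g (k + 1) q with hYdef
  have hMX : M ≤ X := h.le (k + 1) le_rfl hp (hpq.le.trans hq)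
  have hYb : Y ≤ g (k + 1) b := h.le (k + 1) (hp.trans hpq.le) hq le_rfl
  have hYM : Y ≤ M ^ C := hYb.trans (h.tame (k + 1))
  set B := M ^ (C * θ) with hB
  have hB1 : 1 ≤ B := Real.one_le_rpow hM1 (by positivity)
  have hB0 : 0 < B := by linarith
  have hMδ : 0 < M ^ δ := Real.rpow_pos_of_pos hM0 _
  have hδM : M ^ δ ≤ M := by
    calc M ^ δ ≤ M ^ (1 : ℝ) := Real.rpow_le_rpow_of_exponent_le hM1 hδ1
      _ = M := Real.rpow_one M
  have hK2 : 1 ≤ K ^ 2 := one_le_pow₀ hK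
  have hKK : K ≤ K ^ 2 := by nlinarith
  -- the growth of `g k`
  have gk2 : g k q ≤ 2 * g k p := by
    have := h.one_le k p hp (by linarith)
    linarith
  have bk : ∀ z, p ≤ z → z ≤ q → 1 / 2 ≤ K * (g' k z * (q - p)) := fun z h1 h2 => by
    have := (h.bil k hp hpq hq h1 h2 gk2).2
    rwa [hg] at this
  -- the growth of `g (k + 1)`
  have hYX : M ^ δ / (2 * K) ≤ Y - X := by
    obtain ⟨ξ, h1, h2, e⟩ := h.mvt (k + 1) hp hpq hq
    have hξa : a ≤ ξ := by linarith
    have hξb : ξ ≤ b := by linarith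
    have e1 := bk ξ h1.le h2.le
    have e2 := h.grow k ξ hξa hξb
    have e3 : M ^ δ ≤ g (k + 1) ξ ^ δ :=
      Real.rpow_le_rpow hM0.le (h.le (k + 1) le_rfl hξa hξb) hδ0.le
    have e4 := h.pos k ξ hξa hξb
    have hqp : 0 < q - p := by linarith
    have e5 : g' k ξ * M ^ δ ≤ g' (k + 1) ξ := (mul_le_mul_of_nonneg_left e3 e4.le).trans e2
    rw [e, div_le_iff₀ (by positivity)]
    calc M ^ δ = 2 * M ^ δ * (1 / 2) := by ring
      _ ≤ 2 * M ^ δ * (K * (g' k ξ * (q - p))) := by gcongr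
      _ = (g' k ξ * M ^ δ) * (q - p) * (2 * K) := by ring
      _ ≤ g' (k + 1) ξ * (q - p) * (2 * K) := by gcongr
  -- the number and length of the blocks
  set L₀ := 8 * B with hL₀
  have hL₀0 : 0 < L₀ := by positivity
  have hYX1 : L₀ ≤ Y - X := by
    refine le_trans ?_ hYX
    rw [le_div_iff₀ (by positivity)]
    calc L₀ * (2 * K) = 16 * K * B := by rw [hL₀]; ring
      _ ≤ 32 * K ^ 2 * B := by
        apply mul_le_mul_of_nonneg_right _ hB0.le
        linarith
      _ ≤ M ^ δ := hM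
  set N := ⌊(Y - X) / L₀⌋₊ with hN
  have hN1 : 1 ≤ N := by
    apply Nat.le_floor
    rw [le_div_iff₀ hL₀0]
    simpa using hYX1
  have hN0 : (0 : ℝ) < N := by exact_mod_cast hN1
  set L := (Y - X) / N with hL
  have hNL : (N : ℝ) * L = Y - X := by rw [hL]; field_simp
  have hL1 : L₀ ≤ L := by
    rw [hL, le_div_iff₀ hN0]
    have := Nat.floor_le (show 0 ≤ (Y - X) / L₀ from div_nonneg (by linarith) hL₀0.le)
    rw [← hN, le_div_iff₀ hL₀0] at this
    linarith
  have hL0 : 0 < L := by linarith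
  have hL2 : L ≤ 2 * L₀ := by
    rw [hL, div_le_iff₀ hN0]
    have h1 := Nat.lt_floor_add_one ((Y - X) / L₀)
    rw [← hN, div_lt_iff₀ hL₀0] at h1
    have h2 : (1 : ℝ) ≤ N := by exact_mod_cast hN1
    nlinarith
  have hL16 : L ≤ 16 * B := by rw [hL₀] at hL2; linarith
  have hLM : L ≤ M := by
    calc L ≤ 16 * B := hL16
      _ ≤ 32 * K ^ 2 * B := by
        apply mul_le_mul_of_nonneg_right _ hB0.le
        linarith
      _ ≤ M ^ δ := hM
      _ ≤ M := hδM
  -- the inverse function of `g (k + 1)`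
  have hT := h.surj (k + 1) hp hpq.le hq
  choose! T hT1 hT2 hT3 using hT
  choose! m y hy hym using hX
  set J : ℝ → ℕ := fun u => ⌊(g (k + 1) u - X) / L⌋₊ with hJ
  have jfacts : ∀ u, p ≤ u → u < q → X + J u * L ≤ g (k + 1) u ∧
      g (k + 1) u < X + (J u + 1) * L ∧ X + (J u + 1) * L ≤ Y := by
    intro u hu1 hu2
    have e1 : X ≤ g (k + 1) u := h.le (k + 1) hp hu1 (hu2.le.trans hq)
    have e2 : g (k + 1) u < Y := h.lt (k + 1) (hp.trans hu1) hu2 hq
    have e3 : 0 ≤ (g (k + 1) u - X) / L := div_nonneg (by linarith) hL0.le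
    have e4 := Nat.floor_le e3
    have e5 := Nat.lt_floor_add_one ((g (k + 1) u - X) / L)
    rw [le_div_iff₀ hL0] at e4
    rw [div_lt_iff₀ hL0] at e5
    refine ⟨by simp only [hJ]; linarith, by simp only [hJ]; linarith, ?_⟩
    have e6 : J u < N := by
      rw [hJ]
      rw [Nat.floor_lt e3, div_lt_iff₀ hL0]
      linarith
    have e7 : ((J u : ℝ) + 1) ≤ N := by exact_mod_cast e6
    have e8 : ((J u : ℝ) + 1) * L ≤ N * L := mul_le_mul_of_nonneg_right e7 hL0.le
    linarith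
  -- the good points of a block
  have child : ∀ u, p ≤ u → u < q →
      Pts Good (X + J u * L + L / 3) ((X + J u * L + L / 3) ^ θ) (m (X + J u * L + L / 3))
        (y (X + J u * L + L / 3)) ∧ M ^ κ ≤ m (X + J u * L + L / 3) ∧
      ∀ i, i < m (X + J u * L + L / 3) → X + J u * L + L / 3 ≤ y (X + J u * L + L / 3) i ∧
        y (X + J u * L + L / 3) i + 1 / 2 ≤ X + J u * L + 2 * L / 3 := by
    intro u hu1 hu2
    obtain ⟨f1, f2, f3⟩ := jfacts u hu1 hu2
    have hjL : 0 ≤ (J u : ℝ) * L := by positivity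
    have g1 : M ≤ X + J u * L + L / 3 := by linarith
    have g2 : X + J u * L + L / 3 ≤ M ^ C := by nlinarith
    have g3 : (X + J u * L + L / 3) ^ θ ≤ B := by
      calc (X + J u * L + L / 3) ^ θ ≤ (M ^ C) ^ θ := Real.rpow_le_rpow (by linarith) g2 hθ
        _ = B := by rw [hB, ← Real.rpow_mul hM0.le]
    have P := hy _ g1
    refine ⟨P, (Real.rpow_le_rpow hM0.le g1 hκ).trans (hym _ g1), fun i hi => ⟨P.ge i, ?_⟩⟩
    have g4 := P.upp i hi
    linarith
  -- the index of the child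
  set lo₀ : ℝ → ℝ := fun u => T (X + J u * L) with hlo₀
  set hi₀ : ℝ → ℝ := fun u => T (X + (J u + 1) * L) with hhi₀
  set mm : ℝ → ℕ := fun u => m (X + J u * L + L / 3) with hmm
  set I : ℝ → ℕ := fun u => ⌊(u - lo₀ u) * mm u / (hi₀ u - lo₀ u)⌋₊ with hI
  set yy : ℝ → ℝ := fun u => y (X + J u * L + L / 3) (I u) with hyy
  -- facts on the block of `u`
  have blk : ∀ u, p ≤ u → u < q → p ≤ lo₀ u ∧ lo₀ u ≤ u ∧ u < hi₀ u ∧ hi₀ u ≤ q ∧
      g (k + 1) (lo₀ u) = X + J u * L ∧ g (k + 1) (hi₀ u) = X + (J u + 1) * L := by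
    intro u hu1 hu2
    obtain ⟨f1, f2, f3⟩ := jfacts u hu1 hu2
    have hua : a ≤ u := hp.trans hu1
    have hub : u ≤ b := hu2.le.trans hq
    have hj0 : 0 ≤ (J u : ℝ) * L := by positivity
    have r0 : X ≤ X + J u * L := by linarith
    have r0' : X + J u * L ≤ Y := by linarith
    have r1 : X ≤ X + (J u + 1) * L := by linarith
    have t0 := hT3 _ r0 r0'
    have t1 := hT3 _ r1 f3
    have u0 := hT1 _ r0 r0'
    have u0' := hT2 _ r0 r0'
    have u1 := hT1 _ r1 f3
    have u1' := hT2 _ r1 f3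
    refine ⟨u0, ?_, ?_, u1', t0, t1⟩
    · exact h.le_of (k + 1) (by simp only [hlo₀]; linarith) (by linarith) (by simp only [hlo₀]; rw [t0]; exact f1)
    · exact h.lt_of (k + 1) (by linarith) (by simp only [hhi₀]; linarith) (by simp only [hhi₀]; rw [t1]; exact f2)
  have Ilt : ∀ u, p ≤ u → u < q → I u < mm u := by
    intro u hu1 hu2
    obtain ⟨b1, b2, b3, b4, b5, b6⟩ := blk u hu1 hu2
    obtain ⟨P, -, -⟩ := child u hu1 hu2
    have hm1 : (0 : ℝ) < mm u := by
      have := P.pos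
      exact_mod_cast this
    have h1 : 0 < hi₀ u - lo₀ u := by linarith
    rw [hI]
    rw [Nat.floor_lt (by
      have : 0 ≤ u - lo₀ u := by linarith
      positivity), div_lt_iff₀ h1, mul_comm (mm u : ℝ)]
    exact mul_lt_mul_of_pos_right (by linarith) hm1
  have Ifacts : ∀ u, p ≤ u → u < q →
      lo₀ u + I u * ((hi₀ u - lo₀ u) / mm u) ≤ u ∧ u < lo₀ u + (I u + 1) * ((hi₀ u - lo₀ u) / mm u) := by
    intro u hu1 hu2
    obtain ⟨b1, b2, b3, b4, b5, b6⟩ := blk u hu1 hu2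
    obtain ⟨P, -, -⟩ := child u hu1 hu2
    have hm1 : (0 : ℝ) < mm u := by
      have := P.pos
      exact_mod_cast this
    have h1 : 0 < hi₀ u - lo₀ u := by linarith
    have h2 : 0 ≤ (u - lo₀ u) * mm u / (hi₀ u - lo₀ u) := by
      have : 0 ≤ u - lo₀ u := by linarith
      positivity
    have e1 := Nat.floor_le h2
    have e2 := Nat.lt_floor_add_one ((u - lo₀ u) * mm u / (hi₀ u - lo₀ u))
    have e3 : (u - lo₀ u) = (u - lo₀ u) * mm u / (hi₀ u - lo₀ u) * ((hi₀ u - lo₀ u) / mm u) := by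
      field_simp
    have h3 : 0 < (hi₀ u - lo₀ u) / mm u := by positivity
    have e4 := mul_le_mul_of_nonneg_right e1 h3.le
    have e5 := mul_lt_mul_of_pos_right e2 h3
    rw [← e3] at e4 e5
    exact ⟨by simp only [hI]; linarith, by simp only [hI]; linarith⟩
  -- the child of `u`
  have chd : ∀ u, p ≤ u → u < q → lo₀ u < T (yy u) ∧ T (yy u) < T (yy u + 1 / 2) ∧
      T (yy u + 1 / 2) < hi₀ u ∧ g (k + 1) (T (yy u)) = yy u ∧
      g (k + 1) (T (yy u + 1 / 2)) = yy u + 1 / 2 ∧ X + J u * L + L / 3 ≤ yy u ∧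
      yy u + 1 / 2 ≤ X + J u * L + 2 * L / 3 := by
    intro u hu1 hu2
    obtain ⟨b1, b2, b3, b4, b5, b6⟩ := blk u hu1 hu2
    obtain ⟨f1, f2, f3⟩ := jfacts u hu1 hu2
    obtain ⟨P, -, c3⟩ := child u hu1 hu2
    obtain ⟨c1, c2⟩ := c3 (I u) (Ilt u hu1 hu2)
    change X + J u * L + L / 3 ≤ yy u at c1
    change yy u + 1 / 2 ≤ X + J u * L + 2 * L / 3 at c2
    have hj0 : 0 ≤ (J u : ℝ) * L := by positivity
    have r2 : X ≤ yy u := by linarith
    have r2' : yy u ≤ Y := by linarith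
    have r3 : X ≤ yy u + 1 / 2 := by linarith
    have r3' : yy u + 1 / 2 ≤ Y := by linarith
    have t2 := hT3 _ r2 r2'
    have t3 := hT3 _ r3 r3'
    have u2 := hT1 _ r2 r2'
    have u2' := hT2 _ r2 r2'
    have u3 := hT1 _ r3 r3'
    have u3' := hT2 _ r3 r3'
    refine ⟨?_, ?_, ?_, t2, t3, c1, c2⟩
    · exact h.lt_of (k + 1) (by linarith) (by linarith) (by rw [b5, t2]; linarith)
    · exact h.lt_of (k + 1) (by linarith) (by linarith) (by rw [t2, t3]; linarith)
    · exact h.lt_of (k + 1) (by linarith) (by linarith) (by rw [b6, t3]; linarith)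
  have hη0 : 0 < 1 / (3 * K ^ 2) := by positivity
  have hη1 : 1 / (3 * K ^ 2) ≤ 1 := by
    rw [div_le_one (by positivity)]
    nlinarith
  -- a block is short
  have hdbl : ∀ u, p ≤ u → u < q → X + (J u + 1) * L ≤ 2 * (X + J u * L) := by
    intro u h1 h2
    have hj0 : 0 ≤ (J u : ℝ) * L := by positivity
    linarith
  -- the margins
  have mleft : ∀ u, p ≤ u → u < q → lo₀ u + 1 / (3 * K ^ 2) * (hi₀ u - lo₀ u) ≤ T (yy u) := by
    intro u h1 h2
    obtain ⟨b1, b2, b3, b4, b5, b6⟩ := blk u h1 h2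
    obtain ⟨c1, c2, c3, c4, c5, c6, c7⟩ := chd u h1 h2
    have hd := hdbl u h1 h2
    have e := h.ratio hK0.le (k + 1) (hp.trans b1) le_rfl c1 (c2.trans c3).le (b4.trans hq)
      (by rw [b5, b6]; exact hd)
    rw [b5, b6, c4] at e
    have hrl : 0 < hi₀ u - lo₀ u := by linarith
    have e1 : L / 3 * (hi₀ u - lo₀ u) ≤ K ^ 2 * L * (T (yy u) - lo₀ u) := by
      calc L / 3 * (hi₀ u - lo₀ u) ≤ (yy u - (X + J u * L)) * (hi₀ u - lo₀ u) := by
            apply mul_le_mul_of_nonneg_right _ hrl.le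
            linarith
        _ ≤ _ := e
        _ = _ := by ring
    have e2 : L * (hi₀ u - lo₀ u) ≤ L * (3 * K ^ 2 * (T (yy u) - lo₀ u)) := by linarith
    have e3 := le_of_mul_le_mul_left e2 hL0
    have e4 : 1 / (3 * K ^ 2) * (hi₀ u - lo₀ u) ≤ T (yy u) - lo₀ u := by
      rw [one_div_mul_eq_div, div_le_iff₀ (by positivity)]
      linarith
    linarith
  have mright : ∀ u, p ≤ u → u < q → T (yy u + 1 / 2) ≤ hi₀ u - 1 / (3 * K ^ 2) * (hi₀ u - lo₀ u) := by
    intro u h1 h2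
    obtain ⟨b1, b2, b3, b4, b5, b6⟩ := blk u h1 h2
    obtain ⟨c1, c2, c3, c4, c5, c6, c7⟩ := chd u h1 h2
    have hd := hdbl u h1 h2
    have e := h.ratio hK0.le (k + 1) (hp.trans b1) (c1.trans c2).le c3 le_rfl (b4.trans hq)
      (by rw [b5, b6]; exact hd)
    rw [b5, b6, c5] at e
    have hrl : 0 < hi₀ u - lo₀ u := by linarith
    have e1 : L / 3 * (hi₀ u - lo₀ u) ≤ K ^ 2 * L * (hi₀ u - T (yy u + 1 / 2)) := by
      calc L / 3 * (hi₀ u - lo₀ u) ≤ (X + (J u + 1) * L - (yy u + 1 / 2)) * (hi₀ u - lo₀ u) := by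
            apply mul_le_mul_of_nonneg_right _ hrl.le
            linarith
        _ ≤ _ := e
        _ = _ := by ring
    have e2 : L * (hi₀ u - lo₀ u) ≤ L * (3 * K ^ 2 * (hi₀ u - T (yy u + 1 / 2))) := by linarith
    have e3 := le_of_mul_le_mul_left e2 hL0
    have e4 : 1 / (3 * K ^ 2) * (hi₀ u - lo₀ u) ≤ hi₀ u - T (yy u + 1 / 2) := by
      rw [one_div_mul_eq_div, div_le_iff₀ (by positivity)]
      linarith
    linarith
  -- the number of the children
  have mbig : ∀ u, p ≤ u → u < q → 0 < (mm u : ℝ) ∧ M ^ κ ≤ mm u ∧ 1 ≤ (mm u : ℝ) := by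
    intro u h1 h2
    obtain ⟨P, c2, -⟩ := child u h1 h2
    have h3 : (1 : ℝ) ≤ mm u := by
      have := P.pos
      exact_mod_cast this
    exact ⟨by linarith, c2, h3⟩
  have hsplit : M ^ (κ * s + δ * (1 - s)) = M ^ (κ * s) * M ^ (δ * (1 - s)) := Real.rpow_add hM0 _ _
  have hW0 : 0 < M ^ (δ * (1 - s)) := Real.rpow_pos_of_pos hM0 _
  have hnum1 : ∀ u, p ≤ u → u < q → 4 * K ^ 2 * L ≤ (mm u : ℝ) ^ s * M ^ (δ * (1 - s)) := by
    intro u h1 h2
    obtain ⟨m1, m2, m3⟩ := mbig u h1 h2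
    have e1 : M ^ (κ * s) ≤ (mm u : ℝ) ^ s := by
      rw [Real.rpow_mul hM0.le]
      exact Real.rpow_le_rpow (Real.rpow_nonneg hM0.le _) m2 hs0.le
    calc 4 * K ^ 2 * L ≤ 4 * K ^ 2 * (16 * B) := by gcongr
      _ = 64 * K ^ 2 * B := by ring
      _ ≤ M ^ (κ * s) * M ^ (δ * (1 - s)) := by rw [← hsplit]; exact hM'
      _ ≤ (mm u : ℝ) ^ s * M ^ (δ * (1 - s)) := mul_le_mul_of_nonneg_right e1 hW0.le
  have hnum2 : ∀ u, p ≤ u → u < q → 2 * K ^ 2 * (L / mm u) ≤ M ^ (δ * (1 - s)) := by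
    intro u h1 h2
    obtain ⟨m1, m2, m3⟩ := mbig u h1 h2
    have e1 : (mm u : ℝ) ^ s ≤ mm u := by
      calc (mm u : ℝ) ^ s ≤ (mm u : ℝ) ^ (1 : ℝ) := Real.rpow_le_rpow_of_exponent_le m3 hs1.le
        _ = mm u := Real.rpow_one _
    have e2 := hnum1 u h1 h2
    have e3 : (mm u : ℝ) ^ s * M ^ (δ * (1 - s)) ≤ mm u * M ^ (δ * (1 - s)) :=
      mul_le_mul_of_nonneg_right e1 hW0.le
    have e4 : 2 * K ^ 2 * (L / mm u) = 2 * K ^ 2 * L / mm u := by ring
    rw [e4, div_le_iff₀ m1]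
    have e5 : 0 < K ^ 2 * L := by positivity
    linarith
  -- the length of a block
  have hlen : ∀ u z, p ≤ u → u < q → lo₀ u ≤ z → z ≤ hi₀ u → g' (k + 1) z * (hi₀ u - lo₀ u) ≤ K * L := by
    intro u z h1 h2 h3 h4
    obtain ⟨b1, b2, b3, b4, b5, b6⟩ := blk u h1 h2
    have e1 := (h.bil (k + 1) (hp.trans b1) (b2.trans_lt b3) (b4.trans hq) h3 h4
      (by rw [b5, b6]; exact hdbl u h1 h2)).1
    rw [b5, b6] at e1
    calc _ ≤ _ := e1
      _ = K * L := by ring
  refine ⟨fun u => lo₀ u + I u * ((hi₀ u - lo₀ u) / mm u), fun u => lo₀ u + (I u + 1) * ((hi₀ u - lo₀ u) / mm u),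
    fun u => T (yy u), fun u => T (yy u + 1 / 2), ?_⟩
  constructor
  · intro u h1 h2; exact (Ifacts u h1 h2).1
  · intro u h1 h2; exact (Ifacts u h1 h2).2
  · intro u h1 h2; exact (chd u h1 h2).2.1
  · intro u h1 h2
    have e1 := (blk u h1 h2).1
    have e2 := (chd u h1 h2).1
    change p ≤ T (yy u)
    linarith
  · intro u h1 h2
    have e1 := (blk u h1 h2).2.2.2.1
    have e2 := (chd u h1 h2).2.2.1
    change T (yy u + 1 / 2) ≤ q
    linarith
  · -- shrink
    intro u h1 h2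
    obtain ⟨b1, b2, b3, b4, b5, b6⟩ := blk u h1 h2
    have e1 := mleft u h1 h2
    have e2 := mright u h1 h2
    change T (yy u + 1 / 2) - T (yy u) ≤ (1 - 1 / (3 * K ^ 2)) * (q - p)
    have e3 : 0 ≤ 1 / (3 * K ^ 2) * (hi₀ u - lo₀ u) := mul_nonneg hη0.le (by linarith)
    have e4 : (1 - 1 / (3 * K ^ 2)) * (hi₀ u - lo₀ u) ≤ (1 - 1 / (3 * K ^ 2)) * (q - p) :=
      mul_le_mul_of_nonneg_left (by linarith) (by linarith)
    linarith
  · -- the child is admissible
    intro u h1 h2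
    obtain ⟨b1, b2, b3, b4, b5, b6⟩ := blk u h1 h2
    obtain ⟨c1, c2, c3, c4, c5, c6, c7⟩ := chd u h1 h2
    obtain ⟨P, -, -⟩ := child u h1 h2
    refine ⟨by linarith, by linarith, by rw [c4, c5]; ring, fun t ht1 ht2 => ?_⟩
    apply P.good (I u) (Ilt u h1 h2)
    · change yy u ≤ _
      rw [← c4]; exact h.le (k + 1) (by linarith) ht1 (by linarith)
    · change _ ≤ yy u + 1 / 2
      rw [← c5]; exact h.le (k + 1) (by linarith) ht2 (by linarith)
  · -- the size
    intro u h1 h2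
    obtain ⟨b1, b2, b3, b4, b5, b6⟩ := blk u h1 h2
    obtain ⟨c1, c2, c3, c4, c5, c6, c7⟩ := chd u h1 h2
    obtain ⟨m1, m2, m3⟩ := mbig u h1 h2
    have hca : a ≤ T (yy u) := by linarith
    have hcb : T (yy u) ≤ b := by linarith
    have hj0 : 0 ≤ (J u : ℝ) * L := by positivity
    have e2 := (h.bil (k + 1) hca c2 (c3.le.trans (b4.trans hq)) le_rfl
      c2.le (by rw [c4, c5]; linarith)).2
    rw [c4, c5] at e2
    change lo₀ u + (I u + 1) * ((hi₀ u - lo₀ u) / mm u) - (lo₀ u + I u * ((hi₀ u - lo₀ u) / mm u)) ≤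
      (q - p) ^ (1 - s) * (T (yy u + 1 / 2) - T (yy u)) ^ s
    have e0 : lo₀ u + (I u + 1) * ((hi₀ u - lo₀ u) / mm u) - (lo₀ u + I u * ((hi₀ u - lo₀ u) / mm u)) =
      (hi₀ u - lo₀ u) / mm u := by ring
    rw [e0]
    have e3 := bk (T (yy u)) (by linarith) (by linarith)
    have e4 := h.grow k _ hca hcb
    have e5 : M ^ δ ≤ g (k + 1) (T (yy u)) ^ δ :=
      Real.rpow_le_rpow hM0.le (h.le (k + 1) le_rfl hca hcb) hδ0.le
    have e6 := h.pos k _ hca hcb
    have e7 := h.pos (k + 1) _ hca hcb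
    refine size_aux K (g' (k + 1) (T (yy u))) (L / mm u) (M ^ (δ * (1 - s))) M δ s _ _ _
      (g' k (T (yy u))) hK0 e7 hM0 hs0 hs1 rfl (hnum2 u h1 h2) ?_ ?_ e3 (by linarith) ?_
    · have := hlen u (T (yy u)) h1 h2 c1.le (c2.trans c3).le
      calc g' (k + 1) (T (yy u)) * ((hi₀ u - lo₀ u) / mm u) =
            g' (k + 1) (T (yy u)) * (hi₀ u - lo₀ u) / mm u := by ring
        _ ≤ K * L / mm u := div_le_div_of_nonneg_right this m1.le
        _ = K * (L / mm u) := by ring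
    · calc (1 / 2 : ℝ) = yy u + 1 / 2 - yy u := by ring
        _ ≤ _ := e2
    · exact (mul_le_mul_of_nonneg_left e5 e6.le).trans e4
  · -- consistency
    intro u v hu1 huv hv
    have hu2 : u < q := huv.trans hv
    have hv1 : p ≤ v := hu1.trans huv.le
    have e1 : g (k + 1) u < g (k + 1) v := h.lt (k + 1) (hp.trans hu1) huv (hv.le.trans hq)
    obtain ⟨b1, b2, b3, b4, b5, b6⟩ := blk u hu1 hu2
    obtain ⟨c1, c2, c3, c4, c5, c6, c7⟩ := chd u hu1 hu2
    obtain ⟨m1, m2, m3⟩ := mbig u hu1 hu2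
    obtain ⟨b1', b2', b3', b4', b5', b6'⟩ := blk v hv1 hv
    obtain ⟨c1', c2', c3', c4', c5', c6', c7'⟩ := chd v hv1 hv
    rcases eq_or_ne (J u) (J v) with e | e
    · have el : lo₀ v = lo₀ u := by simp only [hlo₀]; rw [e]
      have eh : hi₀ v = hi₀ u := by simp only [hhi₀]; rw [e]
      have em : mm v = mm u := by simp only [hmm]; rw [e]
      have hrl : 0 < hi₀ u - lo₀ u := by linarith
      rcases eq_or_ne (I u) (I v) with e' | e'
      · left
        have ey : yy v = yy u := by simp only [hyy]; rw [e, e']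
        refine ⟨?_, ?_, ?_, ?_⟩
        · simp only [el, eh, em, e']
        · simp only [el, eh, em, e']
        · simp only [ey]
        · simp only [ey]
      · right
        have hle : I u ≤ I v := by
          simp only [hI]
          apply Nat.floor_mono
          rw [el, eh, em]
          apply div_le_div_of_nonneg_right _ hrl.le
          apply mul_le_mul_of_nonneg_right _ m1.le
          linarith
        have hlt : I u + 1 ≤ I v := by omega
        have hlt' : (I u : ℝ) + 1 ≤ I v := by exact_mod_cast hlt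
        obtain ⟨P, -, -⟩ := child u hu1 hu2
        have ey : yy v = y (X + J u * L + L / 3) (I v) := by simp only [hyy]; rw [e]
        have hadd := P.add (I u) (I v) hle
        rw [← ey] at hadd
        change yy u + _ ≤ yy v at hadd
        obtain ⟨i1, i2⟩ := Ifacts u hu1 hu2
        obtain ⟨j1, j2⟩ := Ifacts v hv1 hv
        rw [el, eh, em] at j1 j2
        have hdc : T (yy u + 1 / 2) < T (yy v) := by
          apply h.lt_of (k + 1) (by linarith) (by linarith)
          rw [c5, c4']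
          linarith
        have hvu : v - u ≤ ((I v : ℝ) - I u + 1) * ((hi₀ u - lo₀ u) / mm u) := by linarith
        have hτm : 0 < (hi₀ u - lo₀ u) / mm u := by positivity
        have hda : a ≤ T (yy u + 1 / 2) := by linarith
        have hj0 : 0 ≤ (J u : ℝ) * L := by positivity
        have c7'' : yy v + 1 / 2 ≤ X + J u * L + 2 * L / 3 := by rw [e]; exact c7'
        have hbil := (h.bil (k + 1) hda hdc (by linarith) le_rfl hdc.le
          (by rw [c5, c4']; linarith)).2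
        rw [c5, c4'] at hbil
        have hH := h.pos (k + 1) (T (yy u + 1 / 2)) hda (by linarith)
        have hl := hlen u (T (yy u + 1 / 2)) hu1 hu2 (by linarith) c3.le
        set H := g' (k + 1) (T (yy u + 1 / 2)) with hHdef
        have hji : ((I v : ℝ) - I u) / 2 ≤ K * (H * (T (yy v) - T (yy u + 1 / 2))) := by
          refine le_trans ?_ hbil
          linarith
        refine ⟨hdc, ?_⟩
        have e3 := bk (T (yy u + 1 / 2)) (by linarith) (by linarith)
        have e4 := h.grow k (T (yy u + 1 / 2)) hda (by linarith)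
        have e5 : M ^ δ ≤ g (k + 1) (T (yy u + 1 / 2)) ^ δ :=
          Real.rpow_le_rpow hM0.le (h.le (k + 1) le_rfl hda (by linarith)) hδ0.le
        have e6 := h.pos k (T (yy u + 1 / 2)) hda (by linarith)
        have hwd : v - u ≤ 4 * K ^ 2 * (L / mm u) * (T (yy v) - T (yy u + 1 / 2)) := by
          have f1 : v - u ≤ 2 * ((I v : ℝ) - I u) * ((hi₀ u - lo₀ u) / mm u) := by
            refine hvu.trans (mul_le_mul_of_nonneg_right (by linarith) hτm.le)
          have f2 : H * ((hi₀ u - lo₀ u) / mm u) ≤ K * (L / mm u) := by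
            calc H * ((hi₀ u - lo₀ u) / mm u) = H * (hi₀ u - lo₀ u) / mm u := by ring
              _ ≤ K * L / mm u := div_le_div_of_nonneg_right hl m1.le
              _ = _ := by ring
          have f0 : 0 < T (yy v) - T (yy u + 1 / 2) := by linarith
          calc v - u ≤ 2 * ((I v : ℝ) - I u) * ((hi₀ u - lo₀ u) / mm u) := f1
            _ ≤ 2 * (2 * (K * (H * (T (yy v) - T (yy u + 1 / 2))))) * ((hi₀ u - lo₀ u) / mm u) := by
              apply mul_le_mul_of_nonneg_right _ hτm.le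
              linarith
            _ = 4 * K * (T (yy v) - T (yy u + 1 / 2)) * (H * ((hi₀ u - lo₀ u) / mm u)) := by ring
            _ ≤ 4 * K * (T (yy v) - T (yy u + 1 / 2)) * (K * (L / mm u)) :=
              mul_le_mul_of_nonneg_left f2 (by positivity)
            _ = _ := by ring
        have key := sep_aux K H L (mm u) M δ s (q - p) (hi₀ u - lo₀ u) (v - u)
          (T (yy v) - T (yy u + 1 / 2)) (g' k (T (yy u + 1 / 2))) hK0 hH hM0 hs0 hs1 hL0 m1
          (hnum1 u hu1 hu2) hl e3 (by linarith) (by linarith) hwd (by linarith) (by linarith)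
          ((mul_le_mul_of_nonneg_left e5 e6.le).trans e4)
        have hpos : 0 < (q - p) ^ (1 - s) * (T (yy v) - T (yy u + 1 / 2)) ^ s := by
          apply mul_pos
          · exact Real.rpow_pos_of_pos (by linarith) _
          · exact Real.rpow_pos_of_pos (by linarith) _
        have h3K : 1 ≤ 3 * K ^ 2 := by nlinarith
        calc v - u ≤ 1 * ((q - p) ^ (1 - s) * (T (yy v) - T (yy u + 1 / 2)) ^ s) := by rw [one_mul]; exact key
          _ ≤ 3 * K ^ 2 * ((q - p) ^ (1 - s) * (T (yy v) - T (yy u + 1 / 2)) ^ s) :=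
            mul_le_mul_of_nonneg_right h3K hpos.le
    · right
      have hle : J u ≤ J v := by
        apply Nat.floor_mono
        apply div_le_div_of_nonneg_right _ hL0.le
        linarith
      have hlt : J u + 1 ≤ J v := by omega
      have hlt' : (J u : ℝ) + 1 ≤ J v := by exact_mod_cast hlt
      obtain ⟨f1, f2, f3⟩ := jfacts u hu1 (huv.trans hv)
      obtain ⟨f4, f5, f6⟩ := jfacts v (hu1.trans huv.le) hv
      have hjv : ((J u : ℝ) + 1) * L ≤ J v * L := mul_le_mul_of_nonneg_right hlt' hL0.le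
      have hhl : hi₀ u ≤ lo₀ v := by
        apply h.le_of (k + 1) (by linarith) (by linarith)
        rw [b6, b5']
        linarith
      have e2 := mright u hu1 hu2
      have e3 := mleft v hv1 hv
      have hgap : 1 / (3 * K ^ 2) * (v - u) ≤ T (yy v) - T (yy u + 1 / 2) := by
        have g1 : 1 / (3 * K ^ 2) * (v - u) ≤ 1 / (3 * K ^ 2) * ((hi₀ v - lo₀ v) + (lo₀ v - hi₀ u) +
            (hi₀ u - lo₀ u)) := mul_le_mul_of_nonneg_left (by linarith) hη0.le
        have g2 : 1 / (3 * K ^ 2) * (lo₀ v - hi₀ u) ≤ 1 * (lo₀ v - hi₀ u) :=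
          mul_le_mul_of_nonneg_right hη1 (by linarith)
        linarith
      have hgap0 : 0 < 1 / (3 * K ^ 2) * (v - u) := mul_pos hη0 (by linarith)
      refine ⟨by linarith, ?_⟩
      have hw : 0 < v - u := by linarith
      have g3 : v - u = (v - u) ^ (1 - s) * (v - u) ^ s := by
        rw [← Real.rpow_add hw]; simp
      have g4 : (v - u) ^ (1 - s) ≤ (q - p) ^ (1 - s) :=
        Real.rpow_le_rpow hw.le (by linarith) (by linarith)
      have g5 : v - u ≤ 3 * K ^ 2 * (T (yy v) - T (yy u + 1 / 2)) := by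
        rw [one_div_mul_eq_div, div_le_iff₀ (by positivity)] at hgap
        linarith
      have hd0 : 0 < T (yy v) - T (yy u + 1 / 2) := by linarith
      have h3K : 1 ≤ 3 * K ^ 2 := by nlinarith
      have g6 : (v - u) ^ s ≤ 3 * K ^ 2 * (T (yy v) - T (yy u + 1 / 2)) ^ s := by
        calc (v - u) ^ s ≤ (3 * K ^ 2 * (T (yy v) - T (yy u + 1 / 2))) ^ s :=
              Real.rpow_le_rpow hw.le g5 hs0.le
          _ = (3 * K ^ 2) ^ s * (T (yy v) - T (yy u + 1 / 2)) ^ s :=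
              Real.mul_rpow (by positivity) hd0.le
          _ ≤ (3 * K ^ 2) ^ (1 : ℝ) * (T (yy v) - T (yy u + 1 / 2)) ^ s := by
              apply mul_le_mul_of_nonneg_right _ (Real.rpow_nonneg hd0.le _)
              exact Real.rpow_le_rpow_of_exponent_le h3K hs1.le
          _ = _ := by rw [Real.rpow_one]
      have hqp : 0 < (q - p) ^ (1 - s) := Real.rpow_pos_of_pos (by linarith) _
      calc v - u = (v - u) ^ (1 - s) * (v - u) ^ s := g3
        _ ≤ (q - p) ^ (1 - s) * (3 * K ^ 2 * (T (yy v) - T (yy u + 1 / 2)) ^ s) :=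
          mul_le_mul g4 g6 (Real.rpow_nonneg hw.le _) hqp.le
        _ = _ := by ring

end Pool.Agent.K6.H86.MM
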