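import Pool.Agent.K6.H83.MC.Pow
import Pool.Agent.K6.H86.MM.Div

set_option autoImplicit false
set_option maxHeartbeats 4000000

/-! # Mills-type constants with many good integers in every short interval: the dimension -/

namespace Pool.Agent.K6.H86.MM

open Set Filter Topology
open Pool.Agent.K6.H83.MC (Fast fast_pow)

/-- **Mills-type constants.** -/
theorem mills {δ C K a b : ℝ} {g g' : ℕ → ℝ → ℝ} (h : Fast δ C K a b g g') (hab : a < b)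
    (hK : 1 ≤ K) (hδ0 : 0 < δ) (hδ1 : δ ≤ 1) (hC : 0 ≤ C) (s θ κ : ℝ) (hs0 : 0 < s) (hs1 : s < 1)
    (hθ : 0 ≤ θ) (hκ : 0 ≤ κ) (hθ1 : C * θ < δ) (hθs : C * θ < κ * s + δ * (1 - s)) (Good : ℕ → ℝ → Prop) (X₀ : ℝ)
    (hX : ∀ (k : ℕ) (x : ℝ), X₀ ≤ x → ∃ (m : ℕ) (y : ℕ → ℝ), Pts (Good k) x (x ^ θ) m y ∧ x ^ κ ≤ m) :
    ENNReal.ofReal s ≤ dimH {t : ℝ | a ≤ t ∧ t ≤ b ∧ ∃ k₀, ∀ k, k₀ ≤ k → Good k (g k t)} := by
  have hK0 : 0 < K := by linarith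
  obtain ⟨κ₀, hκ0, hκ'⟩ := h.zero
  have hκk : ∀ k x, a ≤ x → x ≤ b → κ₀ ≤ g' k x := by
    intro k
    induction k with
    | zero => exact hκ'
    | succ k ih =>
      intro x hx1 hx2
      have e1 := ih x hx1 hx2
      have e2 := h.grow k x hx1 hx2
      have e3 : 1 ≤ g (k + 1) x ^ δ := Real.one_le_rpow (h.one_le (k + 1) x hx1 hx2) hδ0.le
      nlinarith
  -- the thresholds
  have thr : ∀ A e : ℝ, C * θ < e → ∀ᶠ M : ℝ in atTop, A * M ^ (C * θ) ≤ M ^ e := by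
    intro A e he
    have h1 : ∀ᶠ M : ℝ in atTop, A ≤ M ^ (e - C * θ) :=
      (tendsto_rpow_atTop (by linarith)).eventually_ge_atTop _
    filter_upwards [h1, eventually_gt_atTop (0 : ℝ)] with M hM hM0
    calc A * M ^ (C * θ) ≤ M ^ (e - C * θ) * M ^ (C * θ) := by gcongr
      _ = M ^ e := by rw [← Real.rpow_add hM0]; ring_nf
  have t2 : ∀ᶠ M : ℝ in atTop, 1 / 2 ≤ κ₀ * M ^ δ * (b - a) := by
    have h1 : ∀ᶠ M : ℝ in atTop, 1 / (2 * κ₀ * (b - a)) ≤ M ^ δ :=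
      (tendsto_rpow_atTop hδ0).eventually_ge_atTop _
    filter_upwards [h1] with M hM
    have hba : 0 < b - a := by linarith
    rw [div_le_iff₀ (by positivity)] at hM
    linarith
  have t3 := h.top.eventually ((((thr (32 * K ^ 2) δ hθ1).and (thr (64 * K ^ 2) _ hθs)).and t2).and
    (eventually_ge_atTop X₀))
  obtain ⟨k₁, hk₁⟩ := eventually_atTop.1 t3
  set k₀ := k₁ + 1 with hk₀
  -- the initial interval
  have hinit : ∃ q₀, a < q₀ ∧ q₀ ≤ b ∧ g k₀ q₀ - g k₀ a = 1 / 2 := by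
    obtain ⟨ξ, x1, x2, e⟩ := h.mvt k₀ le_rfl hab le_rfl
    obtain ⟨⟨-, m2⟩, -⟩ := hk₁ k₀ (by omega)
    have e1 := h.grow k₁ ξ x1.le x2.le
    have e2 := hκk k₁ ξ x1.le x2.le
    have e3 : g k₀ a ^ δ ≤ g k₀ ξ ^ δ :=
      Real.rpow_le_rpow (by linarith [h.one_le k₀ a le_rfl hab.le]) (h.le k₀ le_rfl x1.le x2.le)
        hδ0.le
    have e4 : 0 ≤ g k₀ a ^ δ := Real.rpow_nonneg (by linarith [h.one_le k₀ a le_rfl hab.le]) _
    have e5 : κ₀ * g k₀ a ^ δ ≤ g' k₀ ξ := by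
      calc κ₀ * g k₀ a ^ δ ≤ g' k₁ ξ * g k₀ ξ ^ δ := mul_le_mul e2 e3 e4 (hκ0.le.trans e2)
        _ ≤ _ := e1
    have e6 : 1 / 2 ≤ g k₀ b - g k₀ a := by
      rw [e]
      calc (1 / 2 : ℝ) ≤ κ₀ * g k₀ a ^ δ * (b - a) := m2
        _ ≤ g' k₀ ξ * (b - a) := mul_le_mul_of_nonneg_right e5 (by linarith)
    obtain ⟨t, u1, u2, u3⟩ := h.surj k₀ le_rfl hab.le le_rfl (g k₀ a + 1 / 2) (by linarith)
      (by linarith)
    refine ⟨t, h.lt_of k₀ hab.le (by linarith) (by rw [u3]; linarith), u2, by rw [u3]; ring⟩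
  obtain ⟨q₀, hq1, hq2, hq3⟩ := hinit
  have main := cantor (fun j p q => a ≤ p ∧ q ≤ b ∧ g (k₀ + j) q - g (k₀ + j) p = 1 / 2 ∧
      (1 ≤ j → ∀ t, p ≤ t → t ≤ q → Good (k₀ + j) (g (k₀ + j) t))) s (3 * K ^ 2) (1 / (3 * K ^ 2)) hs0 hs1
    (by positivity) (by positivity) (by
      rw [div_le_one (by positivity)]
      nlinarith) a q₀ hq1 ⟨le_rfl, hq2, hq3, fun h => absurd h (by norm_num)⟩
    (fun j p q hA hpq => by
      obtain ⟨a1, a2, a3, -⟩ := hA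
      obtain ⟨⟨⟨m1, m2⟩, -⟩, m3⟩ := hk₁ (k₀ + j + 1) (by omega)
      obtain ⟨lo, hi, c, d, hD⟩ := division h hK hδ0 hδ1 s θ κ hs0 hs1 hθ hκ
        (Good (k₀ + j + 1)) (k₀ + j) a1 hpq a2 a3 hC m1 m2 (fun x hx => hX _ x (m3.trans hx))
      refine ⟨lo, hi, c, d, ⟨hD.lo_le, hD.lt_hi, hD.lt, hD.left, hD.right, hD.shrink,
        fun u h1 h2 => ?_, hD.size, hD.same⟩⟩
      obtain ⟨d1, d2, d3, d4⟩ := hD.adm u h1 h2
      exact ⟨d1, d2, d3, fun _ => d4⟩)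
  refine main.trans (dimH_mono ?_)
  rintro t ⟨h1, h2, h3⟩
  refine ⟨h1, h2.trans hq2, k₀ + 1, fun k hk => ?_⟩
  obtain ⟨j, rfl⟩ : ∃ j, k = k₀ + j := ⟨k - k₀, by omega⟩
  obtain ⟨p, q, ⟨-, -, -, hg⟩, hp, hq⟩ := h3 j
  exact hg (by omega) t hp hq

/-- **Mills-type constants for powers and dilates.** The functions `v k * t ^ n k` on `(a, b)`, where the
exponents increase and each function is at least the `lam`-th power of the previous one. -/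
theorem mills_pow {lam a b : ℝ} {v n : ℕ → ℝ} (hlam : 1 < lam) (ha : 0 ≤ a)
    (hab : a < b) (hn0 : 0 < n 0) (hn : Monotone n) (hv : ∀ k, 0 < v k)
    (hone : ∀ t, a < t → t < b → 1 < v 0 * t ^ n 0)
    (hgrow : ∀ k t, a < t → t < b → (v k * t ^ n k) ^ lam ≤ v (k + 1) * t ^ n (k + 1))
    (s θ κ : ℝ) (hs1 : s < 1) (hθ : 0 ≤ θ) (hκ : 0 ≤ κ) (hθ1 : θ < 1 - 1 / lam)
    (hθs : θ < κ * s + (1 - 1 / lam) * (1 - s)) (Good : ℕ → ℝ → Prop) (X₀ : ℝ)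
    (hX : ∀ (k : ℕ) (x : ℝ), X₀ ≤ x → ∃ (m : ℕ) (y : ℕ → ℝ), Pts (Good k) x (x ^ θ) m y ∧ x ^ κ ≤ m) :
    ENNReal.ofReal s ≤
      dimH {t : ℝ | a < t ∧ t < b ∧ ∃ k₀, ∀ k, k₀ ≤ k → Good k (v k * t ^ n k)} := by
  rcases le_or_gt s 0 with hs0 | hs0
  · rw [ENNReal.ofReal_of_nonpos hs0]; exact zero_le
  have hl0 : 0 < lam := by linarith
  have hδ0 : 0 < 1 - 1 / lam := by
    have : 1 / lam < 1 := by rw [div_lt_one hl0]; exact hlam
    linarith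
  -- the constant `C`
  obtain ⟨C, hC1, hC2, hC3⟩ : ∃ C : ℝ, 1 < C ∧ C * θ < 1 - 1 / lam ∧
      C * θ < κ * s + (1 - 1 / lam) * (1 - s) := by
    obtain ⟨D, hD⟩ : ∃ D, D = min (1 - 1 / lam) (κ * s + (1 - 1 / lam) * (1 - s)) := ⟨_, rfl⟩
    have hDθ : θ < D := by rw [hD]; exact lt_min hθ1 hθs
    have hD0 : 0 < D := by linarith
    have hD1 : D ≤ 1 - 1 / lam := by rw [hD]; exact min_le_left _ _
    have hD2 : D ≤ κ * s + (1 - 1 / lam) * (1 - s) := by rw [hD]; exact min_le_right _ _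
    have key : (1 + (D - θ) / (2 * D)) * θ < D := by
      have e1 : (D - θ) / (2 * D) * θ ≤ (D - θ) / 2 := by
        rw [div_mul_eq_mul_div, div_le_div_iff₀ (by positivity) (by norm_num)]
        nlinarith
      nlinarith
    refine ⟨1 + (D - θ) / (2 * D), ?_, by linarith, by linarith⟩
    have : 0 < (D - θ) / (2 * D) := by
      apply div_pos <;> linarith
    linarith
  set a₀ := (3 * a + b) / 4 with ha₀
  set a' := (a + b) / 2 with ha'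
  have p1 : a < a₀ := by rw [ha₀]; linarith
  have p2 : a₀ < a' := by rw [ha₀, ha']; linarith
  have p3 : a' < b := by rw [ha']; linarith
  have p0 : 0 < a₀ := by linarith
  have p0' : 0 < a' := by linarith
  set b' := min ((a' + b) / 2) (a' * (a' / a₀) ^ (C - 1)) with hb'
  have q1 : a' < b' := by
    apply lt_min
    · linarith
    · have : 1 < (a' / a₀) ^ (C - 1) := by
        apply Real.one_lt_rpow
        · rw [one_lt_div p0]; exact p2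
        · linarith
      nlinarith
  have q2 : b' < b := lt_of_le_of_lt (min_le_left _ _) (by linarith)
  have hF := fast_pow (lam := lam) (a₀ := a₀) (a := a') (b := b') (C := C) (v := v) (n := n) hlam p0
    p2 q1 hC1.le hn0 hn hv (min_le_right _ _) (fun t h1 h2 => hone t (by linarith) (by linarith))
    (fun k t h1 h2 => hgrow k t (by linarith) (by linarith))
  have hK : 1 ≤ 2 * (b' / a') := by
    have : 1 ≤ b' / a' := by rw [one_le_div p0']; exact q1.le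
    linarith
  have main := mills hF q1 hK hδ0 (by
    have : 0 < 1 / lam := by positivity
    linarith) (by linarith) s θ κ hs0 hs1 hθ hκ hC2 hC3 Good X₀ hX
  refine main.trans (dimH_mono ?_)
  rintro t ⟨h1, h2, h3⟩
  exact ⟨by linarith, by linarith, h3⟩

/-- from the number of the good integers to the list of the good points -/
theorem pts_of_count (P : ℕ → Prop) (x B : ℝ) (m : ℕ) (hx : 0 ≤ x) (hB : 0 ≤ B) (hm : 1 ≤ m)
    (hc : m ≤ {n : ℕ | x ≤ n ∧ (n : ℝ) ≤ x + B ∧ P n}.ncard) :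
    ∃ y : ℕ → ℝ, Pts (fun t => P ⌊t⌋₊) x B m y := by
  classical
  obtain ⟨Q, hQ⟩ : ∃ Q : ℕ → Prop, ∀ n, Q n ↔ (x ≤ n ∧ (P n ∨ x + B < n)) := ⟨_, fun n => Iff.rfl⟩
  have hinf : (setOf Q).Infinite := by
    rw [Set.infinite_iff_exists_gt]
    intro a
    obtain ⟨b, hb⟩ := exists_nat_gt (max (a : ℝ) (x + B))
    refine ⟨b, ?_, by exact_mod_cast (lt_of_le_of_lt (le_max_left _ _) hb)⟩
    have h1 : x + B < b := lt_of_le_of_lt (le_max_right _ _) hb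
    exact (hQ b).2 ⟨by linarith, Or.inr h1⟩
  have hmono := Nat.nth_strictMono hinf
  have hmem : ∀ i, Q (Nat.nth Q i) := Nat.nth_mem_of_infinite hinf
  have hcount : m ≤ Nat.count Q (⌊x + B⌋₊ + 1) := by
    refine hc.trans ?_
    rw [Nat.count_eq_card_filter_range, ← Set.ncard_coe_finset]
    apply Set.ncard_le_ncard _ (Finset.finite_toSet _)
    rintro n ⟨h1, h2, h3⟩
    simp only [Finset.coe_filter, Finset.mem_range, Set.mem_setOf_eq]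
    exact ⟨Nat.lt_succ_of_le (Nat.le_floor h2), (hQ n).2 ⟨h1, Or.inl h3⟩⟩
  have hupp : ∀ i, i < m → ((Nat.nth Q i : ℕ) : ℝ) ≤ x + B := by
    intro i hi
    have h1 : Nat.nth Q i < ⌊x + B⌋₊ + 1 := Nat.nth_lt_of_lt_count (hi.trans_le hcount)
    have h2 : ((Nat.nth Q i : ℕ) : ℝ) ≤ ⌊x + B⌋₊ := by exact_mod_cast Nat.lt_succ_iff.1 h1
    exact h2.trans (Nat.floor_le (by linarith))
  refine ⟨fun i => (Nat.nth Q i : ℕ), ⟨hm, ((hQ _).1 (hmem 0)).1, fun i => ?_, hupp, fun i hi t h1 h2 => ?_⟩⟩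
  · have h1 : Nat.nth Q i + 1 ≤ Nat.nth Q (i + 1) := hmono (Nat.lt_succ_self i)
    exact_mod_cast h1
  · have h3 : ⌊t⌋₊ = Nat.nth Q i := by
      rw [Nat.floor_eq_iff (le_trans (Nat.cast_nonneg _) h1)]
      exact ⟨h1, by linarith⟩
    change P ⌊t⌋₊
    rw [h3]
    rcases ((hQ _).1 (hmem i)).2 with h4 | h4
    · exact h4
    · exact absurd (hupp i hi) (not_le.2 h4)

/-- **The dimension of the Mills-type constants.** If `P k` has at least `x ^ κ` members in `[x, x + x ^ θ]`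
for large `x`, where `θ < 1 - 1 / lam` and `θ < κ s + (1 - 1 / lam) (1 - s)`, then the dimension of the
constants is at least `s`. -/
theorem mills_count {lam a b : ℝ} {v n : ℕ → ℝ} (hlam : 1 < lam) (ha : 0 ≤ a)
    (hab : a < b) (hn0 : 0 < n 0) (hn : Monotone n) (hv : ∀ k, 0 < v k)
    (hone : ∀ t, a < t → t < b → 1 < v 0 * t ^ n 0)
    (hgrow : ∀ k t, a < t → t < b → (v k * t ^ n k) ^ lam ≤ v (k + 1) * t ^ n (k + 1))
    (s θ κ : ℝ) (hs1 : s < 1) (hθ : 0 ≤ θ) (hκ : 0 ≤ κ) (hθ1 : θ < 1 - 1 / lam)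
    (hθs : θ < κ * s + (1 - 1 / lam) * (1 - s)) (P : ℕ → ℕ → Prop) (X₀ : ℝ)
    (hX : ∀ (k : ℕ) (x : ℝ), X₀ ≤ x → x ^ κ ≤ {n : ℕ | x ≤ n ∧ (n : ℝ) ≤ x + x ^ θ ∧ P k n}.ncard) :
    ENNReal.ofReal s ≤
      dimH {t : ℝ | a < t ∧ t < b ∧ ∃ k₀, ∀ k, k₀ ≤ k → P k ⌊v k * t ^ n k⌋₊} := by
  refine mills_pow hlam ha hab hn0 hn hv hone hgrow s θ κ hs1 hθ hκ hθ1 hθs
    (fun k t => P k ⌊t⌋₊) (max X₀ 1) (fun k x hx => ?_)
  have hx0 : X₀ ≤ x := (le_max_left _ _).trans hx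
  have hx1 : 1 ≤ x := (le_max_right _ _).trans hx
  have h := hX k x hx0
  have h1 : (1 : ℝ) ≤ x ^ κ := Real.one_le_rpow hx1 hκ
  obtain ⟨y, hy⟩ := pts_of_count (P k) x (x ^ θ) _ (by linarith) (by positivity) (by
    have : (1 : ℝ) ≤ ({n : ℕ | x ≤ n ∧ (n : ℝ) ≤ x + x ^ θ ∧ P k n}.ncard : ℝ) := h1.trans h
    exact_mod_cast this) le_rfl
  exact ⟨_, y, hy, h⟩

end Pool.Agent.K6.H86.MM
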