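import Pool.Agent.TH423.SH.FLLP
import Pool.Agent.TH423.SH.FLIP
import Pool.Agent.TH423.SH.PRDP

set_option autoImplicit false
set_option maxHeartbeats 4000000

/-! # Almost prime tuples in short intervals and progressions

By the fundamental lemma `Pool.Agent.TH423.SH.fli`: every interval `[x, x + x^θ]` contains many `n ≡ c (mod M)`,
`M ≤ x^δ`, such that the numbers `n + h`, `h ∈ H`, have no prime factor at most `x^(θ / (2 D))`, where `D` depends
only on the number `k` of the shifts; uniformly in the admissible set `H` with at most `k` elements. -/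

namespace Pool.Agent.K6.H86.MM.Tup

open Finset Filter
open Pool.Agent.TH423.SH (PS PIj fli fll prc)
open Pool.Agent.TH423.SH.PrdP (mem_PS)

/-- no prime `p` divides all the products `∏ (m + h)`, `h ∈ H` -/
def Admissible (H : Finset ℕ) : Prop := ∀ p : ℕ, p.Prime → ∃ m : ℕ, ∀ h ∈ H, ¬ p ∣ m + h

lemma exists_adm (H : Finset ℕ) (hH : Admissible H) (S : Finset ℕ) (hS : ∀ p ∈ S, p.Prime) :
    ∃ a : ℕ, ∀ p ∈ S, ∀ h ∈ H, ¬ p ∣ a + h := by
  classical
  induction S using Finset.induction_on with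
  | empty => exact ⟨0, fun p hp => absurd hp (notMem_empty p)⟩
  | insert p S hp ih =>
    obtain ⟨a, ha⟩ := ih (fun q hq => hS q (mem_insert_of_mem hq))
    have hpp := hS p (mem_insert_self p S)
    obtain ⟨r, hr⟩ := hH p hpp
    have hcop : Nat.Coprime (∏ q ∈ S, q) p := by
      apply Nat.Coprime.prod_left
      intro q hq
      refine (Nat.coprime_primes (hS q (mem_insert_of_mem hq)) hpp).2 ?_
      rintro rfl
      exact hp hq
    obtain ⟨x, hx1, hx2⟩ := Nat.chineseRemainder hcop a r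
    refine ⟨x, fun q hq h hh => ?_⟩
    rcases mem_insert.1 hq with rfl | hq
    · intro hd
      exact hr h hh (((hx2.add_right h).dvd_iff dvd_rfl).1 hd)
    · intro hd
      have h1 : x ≡ a [MOD q] := hx1.of_dvd (dvd_prod_of_mem _ hq)
      exact ha q hq h hh (((h1.add_right h).dvd_iff dvd_rfl).1 hd)

open Classical in
/-- the forbidden residues -/
noncomputable def Om₀ (H : Finset ℕ) (p : ℕ) : Finset ℕ := H.image (fun h => (p - h % p) % p)

lemma exists_Om (H : Finset ℕ) (k : ℕ) (hk : H.card ≤ k) (p : ℕ) (hp : k < p) :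
    ∃ U : Finset ℕ, U.card = k ∧ (∀ c ∈ U, c < p) ∧ Om₀ H p ⊆ U := by
  classical
  have h1 : Om₀ H p ⊆ range p := by
    intro c hc
    obtain ⟨h, _, rfl⟩ := mem_image.1 hc
    exact mem_range.2 (Nat.mod_lt _ (by omega))
  have h2 : (Om₀ H p).card ≤ k := card_image_le.trans hk
  obtain ⟨U, hU1, hU2, hU3⟩ := exists_subsuperset_card_eq h1 h2 (by rw [card_range]; omega)
  exact ⟨U, hU3, fun c hc => mem_range.1 (hU2 hc), hU1⟩

open Classical in
/-- `k` residues that contain the forbidden ones -/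
noncomputable def Om (H : Finset ℕ) (k p : ℕ) : Finset ℕ :=
  if h : ∃ U : Finset ℕ, U.card = k ∧ (∀ c ∈ U, c < p) ∧ Om₀ H p ⊆ U then h.choose else ∅

lemma Om_card (H : Finset ℕ) (k : ℕ) (hk : H.card ≤ k) (p : ℕ) (hp : k < p) :
    (Om H k p).card = k ∧ ∀ c ∈ Om H k p, c < p := by
  have h := exists_Om H k hk p hp
  unfold Om
  rw [dif_pos h]
  exact ⟨h.choose_spec.1, h.choose_spec.2.1⟩

lemma Om_spec (H : Finset ℕ) (k : ℕ) (hk : H.card ≤ k) (p n h : ℕ) (hp : k < p) (hh : h ∈ H)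
    (hn : n % p ∉ Om H k p) : ¬ p ∣ n + h := by
  classical
  intro hd
  apply hn
  have h0 := exists_Om H k hk p hp
  unfold Om
  rw [dif_pos h0]
  apply h0.choose_spec.2.2
  unfold Om₀
  rw [mem_image]
  refine ⟨h, hh, ?_⟩
  have hp0 : 0 < p := by omega
  have h1 : (n % p + h % p) % p = 0 := by
    rw [← Nat.add_mod]
    exact Nat.mod_eq_zero_of_dvd hd
  have h2 : n % p < p := Nat.mod_lt _ hp0
  have h3 : h % p < p := Nat.mod_lt _ hp0
  have h4 : n % p + h % p = 0 ∨ n % p + h % p = p := by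
    rcases lt_or_ge (n % p + h % p) p with h5 | h5
    · rw [Nat.mod_eq_of_lt h5] at h1
      exact Or.inl h1
    · right
      have h6 : n % p + h % p - p < p := by omega
      rw [Nat.mod_eq_sub_mod h5, Nat.mod_eq_of_lt h6] at h1
      omega
  rcases h4 with h5 | h5
  · have h6 : h % p = 0 := by omega
    have h7 : n % p = 0 := by omega
    rw [h6, h7, Nat.sub_zero, Nat.mod_self]
  · rcases Nat.eq_zero_or_pos (h % p) with h6 | h6
    · omega
    · have h7 : p - h % p < p := by omega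
      rw [Nat.mod_eq_of_lt h7]
      omega

lemma PIj_mono {W W' R k : ℕ} (hW : W ∣ W') (hk : ∀ p : ℕ, p.Prime → p ≤ k → p ∣ W) : PIj W R k ≤ PIj W' R k := by
  unfold PIj
  have hsub : PS W' R ⊆ PS W R := by
    intro p hp
    rw [mem_PS] at hp ⊢
    exact ⟨hp.1, hp.2.1, fun h => hp.2.2 (h.trans hW)⟩
  have hfac : ∀ p ∈ PS W R, 0 ≤ 1 - (k : ℝ) / (p : ℝ) ∧ 1 - (k : ℝ) / (p : ℝ) ≤ 1 := by
    intro p hp
    rw [mem_PS] at hp
    have h1 : k < p := by
      by_contra hc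
      exact hp.2.2 (hk p hp.2.1 (by omega))
    have h2 : (k : ℝ) ≤ p := by exact_mod_cast h1.le
    have h3 : (0 : ℝ) < p := by exact_mod_cast (by omega : 0 < p)
    constructor
    · rw [sub_nonneg, div_le_one h3]; exact h2
    · have : 0 ≤ (k : ℝ) / p := by positivity
      linarith
  rw [← prod_sdiff hsub]
  have h1 : ∏ p ∈ PS W R \ PS W' R, (1 - (k : ℝ) / (p : ℝ)) ≤ 1 :=
    prod_le_one (fun p hp => (hfac p (sdiff_subset hp)).1) (fun p hp => (hfac p (sdiff_subset hp)).2)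
  have h2 : 0 ≤ ∏ p ∈ PS W' R, (1 - (k : ℝ) / (p : ℝ)) :=
    prod_nonneg fun p hp => (hfac p (hsub hp)).1
  calc _ ≤ 1 * ∏ p ∈ PS W' R, (1 - (k : ℝ) / (p : ℝ)) := mul_le_mul_of_nonneg_right h1 h2
    _ = _ := one_mul _

/-- the good integers of the interval -/
def GoodSet (H : Finset ℕ) (x θ z : ℝ) (M c : ℕ) : Set ℕ :=
  {n : ℕ | x ≤ n ∧ (n : ℝ) ≤ x + x ^ θ ∧ n ≡ c [MOD M] ∧ ∀ h ∈ H, ∀ p : ℕ, p.Prime → p ∣ n + h → z < p}

theorem count (k : ℕ) : ∃ D : ℕ, 1 ≤ D ∧ ∀ θ δ : ℝ, 0 < θ → θ ≤ 1 → 0 < δ → δ ≤ θ / 8 → ∃ X₀ : ℝ, ∀ x : ℝ, X₀ ≤ x →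
    ∀ (H : Finset ℕ) (M c : ℕ), H.card ≤ k → Admissible H → 0 < M → (M : ℝ) ≤ x ^ δ →
      (∀ h ∈ H, (c + h).Coprime M) →
      x ^ (θ - 2 * δ) ≤ (GoodSet H x θ (x ^ (θ / (2 * D))) M c).ncard := by
  classical
  obtain ⟨C, hC, hF⟩ := fli fll
  obtain ⟨b, hb⟩ : ∃ b : ℕ, b = C * (k + 1) := ⟨_, rfl⟩
  obtain ⟨D, hD⟩ : ∃ D : ℕ, D = 2 * (C * b) := ⟨_, rfl⟩
  have hb1 : 1 ≤ b := by rw [hb]; exact Nat.mul_pos hC (by omega)
  have hCb : 1 ≤ C * b := Nat.mul_pos hC hb1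
  have hD1 : 1 ≤ D := by omega
  refine ⟨D, hD1, fun θ δ hθ hθ1 hδ hδθ => ?_⟩
  have hDr : (1 : ℝ) ≤ D := by exact_mod_cast hD1
  obtain ⟨z₀, hz₀⟩ : ∃ z₀ : ℕ, z₀ = C * (k + 1) + 2 * (k + 1) := ⟨_, rfl⟩
  obtain ⟨S₀, hS₀⟩ : ∃ S₀ : Finset ℕ, S₀ = (Icc 1 z₀).filter Nat.Prime := ⟨_, rfl⟩
  have memS₀ : ∀ p : ℕ, p ∈ S₀ ↔ p.Prime ∧ p ≤ z₀ := by
    intro p
    rw [hS₀, mem_filter, mem_Icc]
    constructor
    · rintro ⟨⟨_, h2⟩, h3⟩; exact ⟨h3, h2⟩
    · rintro ⟨h1, h2⟩; exact ⟨⟨h1.one_lt.le, h2⟩, h1⟩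
  obtain ⟨W₀, hW₀⟩ : ∃ W₀ : ℕ, W₀ = ∏ p ∈ S₀, p := ⟨_, rfl⟩
  have hW₀1 : 1 ≤ W₀ := by
    rw [hW₀]
    exact Nat.pos_of_ne_zero (prod_ne_zero_iff.2 fun p hp => ((memS₀ p).1 hp).1.ne_zero)
  have hW₀r : (1 : ℝ) ≤ W₀ := by exact_mod_cast hW₀1
  have h10 : ∀ p : ℕ, p.Prime → p ≤ 2 * (k + 1) → p ∣ W₀ := by
    intro p hp h
    rw [hW₀]
    exact dvd_prod_of_mem _ ((memS₀ p).2 ⟨hp, by omega⟩)
  obtain ⟨B, R₁, hPR⟩ := prc k W₀ hW₀1 h10
  -- the thresholds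
  have tlog : Tendsto (fun x : ℝ => θ * Real.log x / (D * Real.log 2)) atTop atTop := by
    have h2 : 0 < Real.log 2 := Real.log_pos (by norm_num)
    have : (fun x : ℝ => θ * Real.log x / (D * Real.log 2)) = fun x => (θ / (D * Real.log 2)) * Real.log x := by
      funext x; ring
    rw [this]
    exact Real.tendsto_log_atTop.const_mul_atTop (by positivity)
  have t1 : ∀ᶠ x : ℝ in atTop, (16 * W₀ : ℝ) * Real.log x ^ B ≤ x ^ δ := by
    have h := (isLittleO_log_rpow_rpow_atTop (B : ℝ) hδ).bound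
      (show (0 : ℝ) < 1 / (16 * W₀) by positivity)
    filter_upwards [h, eventually_ge_atTop (1 : ℝ)] with x hx hx1
    have hl : 0 ≤ Real.log x := Real.log_nonneg hx1
    rw [Real.norm_of_nonneg (by positivity), Real.norm_of_nonneg (by positivity), Real.rpow_natCast,
      one_div_mul_eq_div, le_div_iff₀ (by positivity)] at hx
    linarith
  have t2 : ∀ᶠ x : ℝ in atTop, (2 : ℝ) ≤ x ^ θ := (tendsto_rpow_atTop hθ).eventually_ge_atTop _
  have t3 : ∀ᶠ x : ℝ in atTop, Real.log (max R₁ 3) + 1 ≤ θ / (2 * D) * Real.log x := by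
    have : 0 < θ / (2 * D) := by positivity
    exact (Real.tendsto_log_atTop.const_mul_atTop this).eventually_ge_atTop _
  obtain ⟨X₀, hX₀⟩ := eventually_atTop.1 (((t1.and t2).and t3).and
    ((tlog.eventually_ge_atTop 1).and (eventually_ge_atTop (3 : ℝ))))
  refine ⟨X₀, fun x hx H M c hHk hH hM hMx hc => ?_⟩
  obtain ⟨⟨⟨e1, e2⟩, e3⟩, e4, e5⟩ := hX₀ x hx
  have hx0 : 0 < x := by linarith
  have hx1 : 1 ≤ x := by linarith
  have hlx : 1 ≤ Real.log x := by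
    rw [Real.le_log_iff_exp_le hx0]
    have := Real.exp_one_lt_d9
    linarith
  have hlx0 : 0 < Real.log x := by linarith
  -- the modulus
  obtain ⟨S₁, hS₁⟩ : ∃ S₁ : Finset ℕ, S₁ = S₀.filter (fun p => ¬ p ∣ M) := ⟨_, rfl⟩
  obtain ⟨W₁, hW₁⟩ : ∃ W₁ : ℕ, W₁ = ∏ p ∈ S₁, p := ⟨_, rfl⟩
  have memS₁ : ∀ p : ℕ, p ∈ S₁ ↔ (p.Prime ∧ p ≤ z₀) ∧ ¬ p ∣ M := by
    intro p
    rw [hS₁, mem_filter, memS₀]
  have hW₁1 : 1 ≤ W₁ := by
    rw [hW₁]
    exact Nat.pos_of_ne_zero (prod_ne_zero_iff.2 fun p hp => ((memS₁ p).1 hp).1.1.ne_zero)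
  have hW₁₀ : W₁ ≤ W₀ := by
    rw [hW₁, hW₀, hS₁]
    apply prod_le_prod_of_subset_of_one_le' (filter_subset _ _)
    intro p hp _
    exact ((memS₀ p).1 hp).1.one_lt.le
  obtain ⟨a₀, ha₀⟩ := exists_adm H hH S₁ (fun p hp => ((memS₁ p).1 hp).1.1)
  have hcop : Nat.Coprime M W₁ := by
    rw [hW₁]
    apply Nat.Coprime.prod_right
    intro p hp
    have h1 := (memS₁ p).1 hp
    exact ((Nat.Prime.coprime_iff_not_dvd h1.1.1).2 h1.2).symm
  obtain ⟨a, ha1, ha2⟩ := Nat.chineseRemainder hcop c a₀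
  obtain ⟨W, hW⟩ : ∃ W : ℕ, W = M * W₁ := ⟨_, rfl⟩
  have hW1 : 1 ≤ W := by rw [hW]; exact Nat.mul_pos hM hW₁1
  have hsmall : ∀ p : ℕ, p.Prime → p ≤ z₀ → p ∣ W := by
    intro p hp hpz
    rw [hW]
    by_cases h : p ∣ M
    · exact dvd_mul_of_dvd_left h _
    · apply dvd_mul_of_dvd_right
      rw [hW₁]
      exact dvd_prod_of_mem _ ((memS₁ p).2 ⟨⟨hp, hpz⟩, h⟩)
  have hW₀W : W₀ ∣ W := by
    rw [hW₀]
    apply Finset.prod_primes_dvd
    · intro p hp
      exact ((memS₀ p).1 hp).1.prime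
    · intro p hp
      exact hsmall p ((memS₀ p).1 hp).1 ((memS₀ p).1 hp).2
  -- the level
  obtain ⟨Y, hY⟩ : ∃ Y : ℝ, Y = θ * Real.log x / (D * Real.log 2) := ⟨_, rfl⟩
  obtain ⟨J, hJ⟩ : ∃ J : ℕ, J = Nat.log 2 ⌊Y⌋₊ := ⟨_, rfl⟩
  rw [← hY] at e4
  have hlog2 : 0 < Real.log 2 := Real.log_pos (by norm_num)
  have hfl : ⌊Y⌋₊ ≠ 0 := by
    have : 1 ≤ ⌊Y⌋₊ := Nat.le_floor (by exact_mod_cast e4)
    omega
  have hJ1 : ((2 ^ J : ℕ) : ℝ) ≤ Y := by
    have h1 : 2 ^ J ≤ ⌊Y⌋₊ := by rw [hJ]; exact Nat.pow_log_le_self 2 hfl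
    exact (by exact_mod_cast h1 : ((2 ^ J : ℕ) : ℝ) ≤ (⌊Y⌋₊ : ℝ)).trans (Nat.floor_le (by linarith))
  have hJ2 : Y < 2 * ((2 ^ J : ℕ) : ℝ) := by
    have h1 : ⌊Y⌋₊ < 2 ^ (J + 1) := by rw [hJ]; exact Nat.lt_pow_succ_log_self (by norm_num) _
    have h2 : ((⌊Y⌋₊ : ℕ) : ℝ) + 1 ≤ ((2 ^ (J + 1) : ℕ) : ℝ) := by exact_mod_cast h1
    have h3 := Nat.lt_floor_add_one Y
    rw [pow_succ] at h2
    push_cast at h2 ⊢
    linarith
  obtain ⟨R, hR⟩ : ∃ R : ℕ, R = 2 ^ 2 ^ J := ⟨_, rfl⟩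
  have hlR : Real.log R = ((2 ^ J : ℕ) : ℝ) * Real.log 2 := by
    rw [hR]
    push_cast
    rw [Real.log_pow]
    push_cast
    ring
  have hR0 : (0 : ℝ) < R := by
    rw [hR]; push_cast; positivity
  have hlRup : Real.log R ≤ θ / D * Real.log x := by
    rw [hlR]
    calc ((2 ^ J : ℕ) : ℝ) * Real.log 2 ≤ Y * Real.log 2 := mul_le_mul_of_nonneg_right hJ1 hlog2.le
      _ = θ / D * Real.log x := by rw [hY]; field_simp
  have hlRlow : θ / (2 * D) * Real.log x < Real.log R := by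
    rw [hlR]
    have h1 : Y * Real.log 2 < 2 * ((2 ^ J : ℕ) : ℝ) * Real.log 2 := mul_lt_mul_of_pos_right hJ2 hlog2
    have h2 : Y * Real.log 2 = 2 * (θ / (2 * D) * Real.log x) := by rw [hY]; field_simp
    linarith
  have hRlow : x ^ (θ / (2 * D)) < R := by
    rw [Real.rpow_def_of_pos hx0, ← Real.lt_log_iff_exp_lt hR0]
    linarith
  have hRup : ((R ^ (C * b) : ℕ) : ℝ) ≤ x ^ (θ / 2) := by
    have h1 : ((R ^ (C * b) : ℕ) : ℝ) = Real.exp (Real.log R * (C * b : ℕ)) := by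
      rw [Nat.cast_pow, ← Real.rpow_natCast, Real.rpow_def_of_pos hR0]
    rw [h1, Real.rpow_def_of_pos hx0]
    apply Real.exp_le_exp.2
    have hCbr : ((C * b : ℕ) : ℝ) = D / 2 := by rw [hD]; push_cast; ring
    rw [hCbr]
    calc Real.log R * (D / 2) ≤ θ / D * Real.log x * (D / 2) :=
          mul_le_mul_of_nonneg_right hlRup (by positivity)
      _ = Real.log x * (θ / 2) := by field_simp
  have hR₁ : R₁ ≤ R := by
    have h1 : Real.log (max R₁ 3) < Real.log R := by linarith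
    have h2 : (max (R₁ : ℝ) 3) < R := (Real.log_lt_log_iff (by positivity) hR0).1 h1
    have h3 : (R₁ : ℝ) < R := (le_max_left _ _).trans_lt h2
    exact_mod_cast h3.le
  have hR3 : (3 : ℝ) < R := by
    have h1 : Real.log (max R₁ 3) < Real.log R := by linarith
    have h2 : (max (R₁ : ℝ) 3) < R := (Real.log_lt_log_iff (by positivity) hR0).1 h1
    exact (le_max_right _ _).trans_lt h2
  have hlR1 : 0 < Real.log R := Real.log_pos (by linarith)
  have hlRx : Real.log R ≤ Real.log x := by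
    refine hlRup.trans ?_
    have h1 : θ / D ≤ 1 := by
      rw [div_le_one (by linarith)]
      linarith
    calc θ / D * Real.log x ≤ 1 * Real.log x := mul_le_mul_of_nonneg_right h1 hlx0.le
      _ = _ := one_mul _
  -- the product
  have hPI : 1 / Real.log x ^ B ≤ PIj W R k := by
    refine le_trans ?_ ((hPR R hR₁).trans (PIj_mono hW₀W (fun p hp h => h10 p hp (by omega))))
    apply one_div_le_one_div_of_le (by positivity)
    exact pow_le_pow_left₀ hlR1.le hlRx B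
  -- the interval
  obtain ⟨u, hu⟩ : ∃ u : ℕ, u = ⌈x⌉₊ - 1 := ⟨_, rfl⟩
  obtain ⟨v, hv⟩ : ∃ v : ℕ, v = ⌊x + x ^ θ⌋₊ := ⟨_, rfl⟩
  have hceil : 1 ≤ ⌈x⌉₊ := Nat.one_le_iff_ne_zero.2 (by
    rw [Ne, Nat.ceil_eq_zero]; linarith)
  have hur : (u : ℝ) = ⌈x⌉₊ - 1 := by rw [hu, Nat.cast_sub hceil]; simp
  have hux : (u : ℝ) ≤ x := by
    have := Nat.ceil_lt_add_one hx0.le
    rw [hur]; linarith
  have hvx : x + x ^ θ - 1 ≤ v := by
    have := Nat.lt_floor_add_one (x + x ^ θ)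
    rw [← hv] at this
    linarith
  have huv : u ≤ v := by
    have : (u : ℝ) ≤ v := by linarith
    exact_mod_cast this
  -- the fundamental lemma
  have hPSz : ∀ p ∈ PS W R, z₀ < p := by
    intro p hp
    rw [mem_PS] at hp
    by_contra hcon
    exact hp.2.2 (hsmall p hp.2.1 (not_lt.1 hcon))
  have hmain := hF k b W W (le_of_eq hb.symm) hW1 (fun p hp hpC => hsmall p hp (by omega)) hW1 u v J a huv
    (fun p hp => by
      rw [mem_PS] at hp
      exact hp.2.2)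
    (Om H k) (fun p hp => by
      have h1 : p ∈ PS W R := by rw [hR]; exact hp
      exact Om_card H k hHk p (by have := hPSz p h1; omega))
  have hR' : ((2 : ℝ) ^ 2 ^ J) ^ (C * b) = ((R ^ (C * b) : ℕ) : ℝ) := by
    rw [hR]; push_cast; ring
  rw [hR'] at hmain
  have hlow := (abs_le.1 hmain).1
  rw [← hR] at hlow
  set T := ((Ioc u v).filter (fun n => n % W = a % W ∧ ∀ p ∈ PS W R, n % p ∉ Om H k p)) with hT
  -- inclusion
  have hfin : (GoodSet H x θ (x ^ (θ / (2 * D))) M c).Finite := by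
    apply (Set.finite_Iic ⌊x + x ^ θ⌋₊).subset
    rintro n ⟨-, h2, -⟩
    exact Nat.le_floor h2
  have hsub : (T : Set ℕ) ⊆ GoodSet H x θ (x ^ (θ / (2 * D))) M c := by
    intro n hn
    rw [hT, coe_filter] at hn
    obtain ⟨h1, h2, h3⟩ := hn
    rw [mem_Ioc] at h1
    have hna : n ≡ a [MOD W] := h2
    refine ⟨?_, ?_, ?_, ?_⟩
    · have h4 : ⌈x⌉₊ ≤ n := by omega
      exact Nat.ceil_le.1 h4
    · have h4 : (n : ℝ) ≤ v := by exact_mod_cast h1.2
      refine h4.trans ?_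
      rw [hv]
      exact Nat.floor_le (by positivity)
    · exact (hna.of_dvd (by rw [hW]; exact dvd_mul_right _ _)).trans ha1
    · intro h hh p hp hd
      refine hRlow.trans ?_
      have : R < p := by
        by_contra hcon
        rw [not_lt] at hcon
        by_cases hpW : p ∣ W
        · rw [hW] at hpW
          rcases (Nat.Prime.dvd_mul hp).1 hpW with h5 | h5
          · have h6 : n ≡ c [MOD p] :=
              ((hna.of_dvd (by rw [hW]; exact dvd_mul_right _ _)).trans ha1).of_dvd h5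
            have h7 : p ∣ c + h := ((h6.add_right h).dvd_iff dvd_rfl).1 hd
            exact hp.one_lt.ne' (Nat.dvd_one.1 ((hc h hh) ▸ Nat.dvd_gcd h7 h5))
          · have h8 : p ∈ S₁ := by
              rw [hW₁] at h5
              obtain ⟨q, hq, hpq⟩ := (Prime.dvd_finsetProd_iff hp.prime _).1 h5
              rwa [(Nat.prime_dvd_prime_iff_eq hp ((memS₁ q).1 hq).1.1).1 hpq]
            have h6 : n ≡ a₀ [MOD p] := by
              have h9 : n ≡ a [MOD p] := hna.of_dvd (by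
                rw [hW, hW₁]
                exact dvd_mul_of_dvd_right (dvd_prod_of_mem _ h8) _)
              exact h9.trans (ha2.of_dvd (by rw [hW₁]; exact dvd_prod_of_mem _ h8))
            exact ha₀ p h8 h hh (((h6.add_right h).dvd_iff dvd_rfl).1 hd)
        · have h9 : p ∈ PS W R := mem_PS.2 ⟨⟨hp.one_lt.le, hcon⟩, hp, hpW⟩
          have := hPSz p h9
          exact Om_spec H k hHk p n h (by omega) hh (h3 p h9) hd
      exact_mod_cast this
  have hcard : (T.card : ℝ) ≤ (GoodSet H x θ (x ^ (θ / (2 * D))) M c).ncard := by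
    have := Set.ncard_le_ncard hsub hfin
    rw [Set.ncard_coe_finset] at this
    exact_mod_cast this
  refine le_trans ?_ hcard
  -- the numbers
  have hhalf : (1 / 2 : ℝ) ^ b ≤ 1 / 2 := by
    calc (1 / 2 : ℝ) ^ b ≤ (1 / 2 : ℝ) ^ 1 := pow_le_pow_of_le_one (by norm_num) (by norm_num) hb1
      _ = 1 / 2 := pow_one _
  have hWr : (W : ℝ) ≤ x ^ δ * W₀ := by
    rw [hW]
    push_cast
    have : (W₁ : ℝ) ≤ W₀ := by exact_mod_cast hW₁₀
    exact mul_le_mul hMx this (Nat.cast_nonneg _) (by positivity)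
  have hW0' : (0 : ℝ) < W := by exact_mod_cast hW1
  have hvu : x ^ θ / 2 ≤ (v : ℝ) - u := by linarith
  have hA : x ^ (θ - δ) / (2 * W₀) ≤ ((v : ℝ) - u) / W := by
    calc x ^ (θ - δ) / (2 * W₀) = (x ^ θ / 2) / (x ^ δ * W₀) := by
          rw [Real.rpow_sub hx0]; field_simp
      _ ≤ ((v : ℝ) - u) / (x ^ δ * W₀) := div_le_div_of_nonneg_right hvu (by positivity)
      _ ≤ ((v : ℝ) - u) / W := div_le_div_of_nonneg_left (by linarith [hvu, (by positivity : 0 < x ^ θ)]) hW0' hWr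
  have hPI0 : 0 < 1 / Real.log x ^ B := by positivity
  have hmn : x ^ (θ - δ) / (2 * W₀) * (1 / Real.log x ^ B) ≤ ((v : ℝ) - u) / W * PIj W R k :=
    mul_le_mul hA hPI hPI0.le ((by positivity : (0 : ℝ) ≤ x ^ (θ - δ) / (2 * W₀)).trans hA)
  have hmn0 : 0 < x ^ (θ - δ) / (2 * W₀) * (1 / Real.log x ^ B) := by positivity
  have hstep : 4 * x ^ (θ - 2 * δ) ≤ (x ^ (θ - δ) / (2 * W₀) * (1 / Real.log x ^ B)) / 2 * 2 := by
    have h1 : x ^ (θ - δ) / (2 * W₀) * (1 / Real.log x ^ B) = x ^ (θ - δ) / (2 * W₀ * Real.log x ^ B) := by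
      field_simp
    rw [h1]
    have h2 : x ^ (θ - δ) = x ^ (θ - 2 * δ) * x ^ δ := by
      rw [← Real.rpow_add hx0]; ring_nf
    have h3 : x ^ (θ - 2 * δ) * (16 * W₀ * Real.log x ^ B) ≤ x ^ (θ - 2 * δ) * x ^ δ :=
      mul_le_mul_of_nonneg_left e1 (by positivity)
    have h4 : 0 < W₀ * Real.log x ^ B := by positivity
    rw [h2]
    have h5 : 8 * x ^ (θ - 2 * δ) ≤ x ^ (θ - 2 * δ) * x ^ δ / (2 * W₀ * Real.log x ^ B) := by
      rw [le_div_iff₀ (by positivity)]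
      calc 8 * x ^ (θ - 2 * δ) * (2 * W₀ * Real.log x ^ B) = x ^ (θ - 2 * δ) * (16 * W₀ * Real.log x ^ B) := by ring
        _ ≤ _ := h3
    have h6 : 0 < x ^ (θ - 2 * δ) := by positivity
    linarith
  have herr : x ^ (θ / 2) ≤ x ^ (θ - 2 * δ) :=
    Real.rpow_le_rpow_of_exponent_le hx1 (by linarith)
  have hbmn : (1 / 2 : ℝ) ^ b * (((v : ℝ) - u) / W * PIj W R k) ≤ 1 / 2 * (((v : ℝ) - u) / W * PIj W R k) :=
    mul_le_mul_of_nonneg_right hhalf (hmn0.le.trans hmn)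
  have hlow' : -((1 / 2 : ℝ) ^ b * (((v : ℝ) - u) / W * PIj W R k) + ((R ^ (C * b) : ℕ) : ℝ)) ≤
      (T.card : ℝ) - ((v : ℝ) - u) / W * PIj W R k := by
    refine le_trans hlow (le_of_eq ?_)
    congr 2
    apply congrArg Finset.card
    ext n
    simp only [hT, mem_filter]
  linarith

end Pool.Agent.K6.H86.MM.Tup
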